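import Pool.Agent.Helper391.ForceCH
import Pool.Agent.Helper391.Gro.P_main
import Pool.Agent.Helper391.Gro.P_positive

set_option autoImplicit false
set_option linter.all false

/-!
# Perfectly normal compacta and the hereditary Grothendieck property: independence

Some forcing notion forces diamond; diamond gives a perfectly normal compact space which is not
hereditarily Grothendieck; under Martin's axiom for `ω₁` dense sets every perfectly normal compact
space is hereditarily Grothendieck.
-/

open Set Topology Filter

namespace Pool.Agent.Results.MP_3e0795_gt.Independence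

open Pool.Agent.Helper391.ForceCH (Om OmegaOnePreserved DiamondHolds)

/-- `C` is a closed unbounded subset of `ω₁` (the sentence named by `IsClubName`) -/
def IsClub (C : Om → Prop) : Prop :=
  (∀ a : Om, ∃ b : Om, a < b ∧ C b) ∧
    ∀ a : Om, (∃ b, b < a) → (∀ b : Om, b < a → ∃ c : Om, (b < c ∧ c < a) ∧ C c) → C a

/-- diamond: the sentence which `DiamondHolds P` says is forced, evaluated in the universe -/
def Diamond : Prop :=
  ∃ A : Om → Om → Prop, ∀ S : Om → Prop, ∀ C : Om → Prop,
    IsClub C → ∃ a : Om, C a ∧ ∀ b : Om, b < a → (S b ↔ A a b)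

/-- Martin's axiom for `ω₁` dense sets: if `P` is a nonempty partial order in which all antichains
(sets of pairwise incompatible elements) are countable, then for any dense sets `D a`, `a < ω₁`,
there is a filter of `P` which meets all of them. -/
def MAOmegaOne : Prop :=
  ∀ (P : Type) (_ : PartialOrder P), Nonempty P →
    (∀ A : Set P, (∀ p ∈ A, ∀ q ∈ A, p ≠ q → ¬ ∃ r, r ≤ p ∧ r ≤ q) → A.Countable) →
    ∀ D : Om → Set P, (∀ a, ∀ p, ∃ q ∈ D a, q ≤ p) →
      ∃ F : Set P, F.Nonempty ∧ (∀ p ∈ F, ∀ q, p ≤ q → q ∈ F) ∧
        (∀ p ∈ F, ∀ q ∈ F, ∃ r ∈ F, r ≤ p ∧ r ≤ q) ∧ ∀ a, (F ∩ D a).Nonempty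

/-- `C_p(X)`: the continuous real functions with the topology of pointwise convergence (the
subspace topology of the product `X → ℝ`) -/
abbrev Cp (X : Type) [TopologicalSpace X] : Type := {f : X → ℝ // Continuous f}

/-- `A` is countably compact in `Z`: every infinite subset of `A` has an accumulation point
in `Z` -/
def CountablyCompactIn {Z : Type} [TopologicalSpace Z] (A : Set Z) : Prop :=
  ∀ B : Set Z, B ⊆ A → B.Infinite → ∃ z : Z, AccPt z (𝓟 B)

/-- `Z` is a g-space: the closure of every set which is countably compact in `Z` is compact -/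
def GSpace (Z : Type) [TopologicalSpace Z] : Prop :=
  ∀ A : Set Z, CountablyCompactIn A → IsCompact (closure A)

/-- `X` is Grothendieck: every subspace of `C_p(X)` is a g-space -/
def Grothendieck (X : Type) [TopologicalSpace X] : Prop :=
  ∀ Z : Set (Cp X), GSpace Z

/-- `X` is hereditarily Grothendieck: every subspace is Grothendieck -/
def HereditarilyGrothendieck (X : Type) [TopologicalSpace X] : Prop :=
  ∀ Y : Set X, Grothendieck Y

/-- (1) Some forcing notion preserves `ω₁` and forces diamond. (2) Diamond implies that some
perfectly normal compact space is not hereditarily Grothendieck. (3) Martin's axiom for `ω₁` dense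
sets implies that all perfectly normal compact spaces are hereditarily Grothendieck. -/
theorem result :
    (∃ (P : Type) (_ : Preorder P), Nonempty P ∧ ∀ p : P,
      p ∈ OmegaOnePreserved P ∧ p ∈ DiamondHolds P) ∧
    (Diamond → ∃ (X : Type) (_ : TopologicalSpace X), CompactSpace X ∧ T2Space X ∧
      PerfectlyNormalSpace X ∧ ¬ HereditarilyGrothendieck X) ∧
    (MAOmegaOne → ∀ (X : Type) (_ : TopologicalSpace X), CompactSpace X → T2Space X →
      PerfectlyNormalSpace X → HereditarilyGrothendieck X) := by
  refine ⟨?_, ?_, ?_⟩
  · obtain ⟨P, hP, hne, h⟩ := Pool.Agent.Helper391.ForceCH.exists_forcing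
    exact ⟨P, hP, hne, fun p => ⟨(h p).1, (h p).2.1⟩⟩
  · intro h
    exact Pool.Agent.Helper391.Gro.main h
  · intro h X _ _ _ _
    exact Pool.Agent.Helper391.Gro.positive h X

end Pool.Agent.Results.MP_3e0795_gt.Independence
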